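import Pool.Agent.W211.AF.Stm2

/-!
Project AF, part TAU: branch sums.
-/

set_option autoImplicit false

namespace Pool.Agent.W119.AF

open FreeGroup
open Pool.Agent.W211.AF
open Pool.Agent.Results.MP_11aa79_an.NotFactor
open Pool.Agent.Results.MP_11aa79_an.NotFactor.Fac
open Pool.Agent.Results.MP_11aa79_an.NotFactor.Words

/-- Longest common prefix. -/
theorem lcp {β : Type} [DecidableEq β] (x y : List β) :
    ∃ c x' y' : List β, x = c ++ x' ∧ y = c ++ y' ∧ ∀ a ∈ x'.head?, ∀ b ∈ y'.head?, a ≠ b := by
  induction x generalizing y with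
  | nil => exact ⟨[], [], y, rfl, rfl, by simp⟩
  | cons a x ih =>
    cases y with
    | nil => exact ⟨[], a :: x, [], rfl, rfl, by simp⟩
    | cons b y =>
      by_cases h : a = b
      · subst h
        obtain ⟨c, x', y', h1, h2, h3⟩ := ih y
        exact ⟨a :: c, x', y', by rw [h1]; rfl, by rw [h2]; rfl, h3⟩
      · exact ⟨[], a :: x, b :: y, rfl, rfl, by simpa using h⟩

theorem key (g s : G) (h : st (0 : Fin 2) (g⁻¹ * s) ≠ st (0 : Fin 2) g⁻¹) :
    ∃ i ≤ s.toWord.length, g = mk (s.toWord.take i) := by
  obtain ⟨c, x, y, hx, hy, hd⟩ := lcp g.toWord s.toWord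
  have hg : g = mk c * mk x := by
    rw [mul_mk, ← hx, mk_toWord]
  have hs : s = mk c * mk y := by
    rw [mul_mk, ← hy, mk_toWord]
  have hxr : IsReduced x := by
    have h1 : IsReduced (c ++ x) := by rw [← hx]; exact isReduced_toWord
    unfold FreeGroup.IsReduced at h1 ⊢
    rw [List.isChain_append] at h1
    exact h1.2.1
  have hyr : IsReduced y := by
    have h1 : IsReduced (c ++ y) := by rw [← hy]; exact isReduced_toWord
    unfold FreeGroup.IsReduced at h1 ⊢
    rw [List.isChain_append] at h1
    exact h1.2.1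
  have hxw : (mk x : G).toWord = x := by rw [toWord_mk]; exact hxr.reduce_eq
  have hyw : (mk y : G).toWord = y := by rw [toWord_mk]; exact hyr.reduce_eq
  cases x with
  | nil =>
    refine ⟨c.length, ?_, ?_⟩
    · rw [hy]; simp
    · rw [hy, List.take_left']
      · rw [hg]; simp [← one_eq_mk]
      · rfl
  | cons a x =>
    exfalso
    apply h
    have e1 : g⁻¹ * s = (mk (a :: x))⁻¹ * mk y := by
      rw [hg, hs]; group
    have e2 : (g⁻¹ * s).toWord = invRev (a :: x) ++ y := by
      rw [e1, toWord_mul_of_append, toWord_inv, hxw, hyw]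
      intro u hu v hv huv
      rw [toWord_inv, hxw] at hu
      rw [hyw] at hv
      have hu' : u = (a.1, !a.2) := by
        have : (invRev (a :: x)).getLast? = some (a.1, !a.2) := by
          simp [invRev]
        rw [this] at hu
        simpa using hu.symm
      have := hd a (by simp) v hv
      rw [hu'] at huv ⊢
      simp only at huv ⊢
      by_contra h3
      apply this
      refine Prod.ext huv ?_
      rcases a with ⟨_, a2⟩
      rcases v with ⟨_, v2⟩
      cases a2 <;> cases v2 <;> simp at h3 ⊢
    have e3 : (g⁻¹).toWord = invRev (a :: x) ++ invRev c := by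
      rw [toWord_inv, hx, invRev_append]
    unfold st
    rw [e2, e3]
    have hne : invRev (a :: x) ≠ [] := by
      intro h0
      have := congrArg List.length h0
      rw [invRev_length] at this
      simp at this
    obtain ⟨b, w, hb⟩ := List.exists_cons_of_ne_nil hne
    rw [hb]
    simp

theorem tau_eq (q : G → ℂ) (hq : (Function.support q).Finite) (h0 : ∑' g, q g = 0) (g : G) :
    tau q (0 : Fin 2) g = ∑' s, q s * (st (0 : Fin 2) (g⁻¹ * s) - st (0 : Fin 2) g⁻¹) := by
  have h2 : Summable fun s => q s * st (0 : Fin 2) (g⁻¹ * s) := by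
    refine summable_of_hasFiniteSupport (hq.subset ?_)
    intro s hs
    simp only [Function.mem_support] at hs ⊢
    intro h; apply hs; rw [h, zero_mul]
  have h3 : Summable fun s => q s * st (0 : Fin 2) g⁻¹ :=
    (summable_of_hasFiniteSupport hq).mul_right _
  simp_rw [mul_sub]
  rw [h2.tsum_sub h3, tsum_mul_right, h0, zero_mul, sub_zero]
  rfl

theorem term_zero (q : G → ℂ) (g s : G) (h : ¬ ∃ i ≤ s.toWord.length, g = mk (s.toWord.take i)) :
    q s * (st (0 : Fin 2) (g⁻¹ * s) - st (0 : Fin 2) g⁻¹) = 0 := by
  have : st (0 : Fin 2) (g⁻¹ * s) = st (0 : Fin 2) g⁻¹ := by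
    by_contra h1
    exact h (key g s h1)
  rw [this, sub_self, mul_zero]

theorem main : Pool.Agent.W211.AF.S_TAU := by
  intro q hq h0
  refine ⟨?_, ?_⟩
  · refine Set.Finite.subset (hq.biUnion (t := fun s =>
      (fun i => (mk (s.toWord.take i) : G)) '' (Finset.range (s.toWord.length + 1) : Set ℕ))
      fun s _ => (Finset.finite_toSet _).image _) ?_
    intro g hg
    simp only [Function.mem_support] at hg
    rw [tau_eq q hq h0] at hg
    by_contra hn
    apply hg
    have : ∀ s, q s * (st (0 : Fin 2) (g⁻¹ * s) - st (0 : Fin 2) g⁻¹) = 0 := by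
      intro s
      by_cases hs : q s = 0
      · rw [hs, zero_mul]
      · apply term_zero
        rintro ⟨i, hi, hgi⟩
        apply hn
        simp only [Set.mem_iUnion]
        exact ⟨s, hs, i, by simpa using Nat.lt_succ_of_le hi, hgi.symm⟩
    simp [this]
  · intro g
    rw [tau_eq q hq h0]
    have hb : ∀ s, ‖q s * (st (0 : Fin 2) (g⁻¹ * s) - st (0 : Fin 2) g⁻¹)‖ ≤
        ‖q s‖ * (if ∃ i ≤ s.toWord.length, g = mk (s.toWord.take i) then 1 else 0) := by
      intro s
      split_ifs with h
      · rw [norm_mul]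
        refine mul_le_mul_of_nonneg_left ?_ (norm_nonneg _)
        unfold st
        split_ifs <;> simp
      · rw [term_zero q g s h]; simp
    have hs1 : Summable fun s => ‖q s‖ *
        (if ∃ i ≤ s.toWord.length, g = mk (s.toWord.take i) then (1 : ℝ) else 0) := by
      refine summable_of_hasFiniteSupport (hq.subset ?_)
      intro s hs
      simp only [Function.mem_support] at hs ⊢
      intro h; apply hs; rw [h]; simp
    exact tsum_of_norm_bounded hs1.hasSum hb

end Pool.Agent.W119.AF
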